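import Pool.Agent.H461Z.Disc.Uni

set_option autoImplicit false

namespace Pool.Agent.H461Z.Disc

open MeasureTheory Set

theorem young_int {α : Type} [MeasurableSpace α] (ν : Measure α) [IsFiniteMeasure ν] {p q : ℝ}
    (hpq : p.HolderConjugate q) {G H : α → ℝ} (hG : BM G) (hH : BM H) (h0 : ∀ x, 0 ≤ H x)
    {ε l I : ℝ} (hε : 0 < ε) (hl : 0 < l) (h1 : ∫ x, |G x| ^ p ∂ν ≤ ε ^ p * I)
    (h2 : ∫ x, H x ^ q ∂ν ≤ l ^ q * I) : ∫ x, |G x| * H x ∂ν ≤ ε * l * I := by
  have hp0 : 0 < p := hpq.pos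
  have hq0 : 0 < q := hpq.symm.pos
  have bG := hG.abs.rpow (fun x => abs_nonneg _) hp0.le
  have bH := hH.rpow h0 hq0.le
  have hεp : 0 < ε ^ p := Real.rpow_pos_of_pos hε p
  have hlq : 0 < l ^ q := Real.rpow_pos_of_pos hl q
  have k : ∫ x, |G x| * H x ∂ν ≤
      ∫ x, (ε * l / (ε ^ p * p) * |G x| ^ p + ε * l / (l ^ q * q) * H x ^ q) ∂ν := by
    apply integral_mono ((hG.abs.mul hH).integrable _)
      ((((BM.const _).mul bG).add ((BM.const _).mul bH)).integrable _)
    intro x
    have y := Real.young_inequality_of_nonneg (div_nonneg (abs_nonneg (G x)) hε.le)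
      (div_nonneg (h0 x) hl.le) hpq
    rw [Real.div_rpow (abs_nonneg _) hε.le, Real.div_rpow (h0 x) hl.le] at y
    have y2 := mul_le_mul_of_nonneg_left y (mul_pos hε hl).le
    calc |G x| * H x = ε * l * (|G x| / ε * (H x / l)) := by field_simp
      _ ≤ _ := y2
      _ = _ := by field_simp
  rw [integral_add (((BM.const _).mul bG).integrable _) (((BM.const _).mul bH).integrable _),
    integral_const_mul, integral_const_mul] at k
  have k1 : ε * l / (ε ^ p * p) * ∫ x, |G x| ^ p ∂ν ≤ ε * l / (ε ^ p * p) * (ε ^ p * I) :=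
    mul_le_mul_of_nonneg_left h1 (by positivity)
  have k2 : ε * l / (l ^ q * q) * ∫ x, H x ^ q ∂ν ≤ ε * l / (l ^ q * q) * (l ^ q * I) :=
    mul_le_mul_of_nonneg_left h2 (by positivity)
  have k3 : ε * l / (ε ^ p * p) * (ε ^ p * I) + ε * l / (l ^ q * q) * (l ^ q * I) =
      ε * l * I * (p⁻¹ + q⁻¹) := by field_simp
  rw [hpq.inv_add_inv_eq_one] at k3
  linarith

theorem sum_biUnion_le' {ι κ : Type} [DecidableEq κ] (s : Finset ι) (t : ι → Finset κ)
    {f : κ → ℝ} (hf : ∀ k, 0 ≤ f k) : ∑ k ∈ s.biUnion t, f k ≤ ∑ i ∈ s, ∑ k ∈ t i, f k := by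
  classical
  induction s using Finset.induction_on with
  | empty => simp
  | insert a s ha ih =>
    rw [Finset.biUnion_insert, Finset.sum_insert ha]
    have := Finset.sum_union_inter (s₁ := t a) (s₂ := s.biUnion t) (f := f)
    have h2 : 0 ≤ ∑ k ∈ t a ∩ s.biUnion t, f k := Finset.sum_nonneg fun k _ => hf k
    linarith

theorem core {p : ℝ} (hp : 1 < p) : ∃ ρ : ℝ, 0 < ρ ∧ ρ < 1 ∧ ∀ (d n : ℕ) (x : Fin n → Fin d → ℝ)
    (a : Fin n → ℝ) (ε : ℝ), 0 < ε → ε ≤ 1 / 3 →
    ∫ t, |(∏ i, cl (t i)) - ∑ j, a j *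
      Set.indicator {y : Fin d → ℝ | ∀ i, x j i < y i} (fun _ => (1 : ℝ)) t| ^ p
        ∂(Measure.pi fun _ : Fin d => mu) ≤
      ε ^ p * ∫ t, |∏ i, cl (t i)| ^ p ∂(Measure.pi fun _ : Fin d => mu) →
    1 / 2 ≤ n * ρ ^ d := by
  classical
  have hpq : p.HolderConjugate (Real.conjExponent p) := Real.HolderConjugate.conjExponent hp
  set q := Real.conjExponent p with hq
  have hq0 : 0 < q := hpq.symm.pos
  have hp0 : 0 ≤ p - 1 := by linarith
  obtain ⟨a0, b, η, hη0, hη1, bb, hbf, hbt, hint, hβ⟩ := uni hpq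
  set ρ := η ^ q⁻¹ with hρ
  have hρ0 : 0 < ρ := Real.rpow_pos_of_pos hη0 _
  have hρq : ρ ^ q = η := by rw [hρ, Real.rpow_inv_rpow hη0.le hq0.ne']
  refine ⟨ρ, hρ0, Real.rpow_lt_one hη0.le hη1 (inv_pos.mpr hq0), ?_⟩
  intro d n x a ε hε hε3 hyp
  set ν : Measure (Fin d → ℝ) := Measure.pi fun _ : Fin d => mu with hν
  set w : ℝ → ℝ := fun t => cl t ^ (p - 1) with hw
  have bw : BM w := bm_cl.rpow cl_nonneg hp0
  have hw0 : ∀ t, 0 ≤ w t := fun t => Real.rpow_nonneg (cl_nonneg t) _
  have hwq : ∀ t, w t ^ q = cl t ^ p := fun t => by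
    rw [hw]; simp only
    rw [← Real.rpow_mul (cl_nonneg t), hpq.sub_one_mul_conj]
  have hwp : ∀ t, cl t * w t = cl t ^ p := fun t => by
    rw [hw]; simp only
    rw [mul_comm, ← Real.rpow_add_one' (cl_nonneg t) (by linarith)]; simp
  set I1 := ∫ t, cl t ^ p ∂mu with hI1
  have hI1pos : 0 < I1 := by
    have h1 := int_pos (r := p) (by linarith) le_rfl zero_lt_one le_rfl
    refine lt_of_lt_of_le h1 (integral_mono
      (((bm_cl.rpow cl_nonneg (by linarith)).mul (BM.ind measurableSet_Ioc)).integrable _)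
      ((bm_cl.rpow cl_nonneg (by linarith)).integrable _) fun t => ?_)
    have := Real.rpow_nonneg (cl_nonneg t) p
    by_cases h : t ∈ Ioc (0 : ℝ) 1 <;> simp [h, this]
  set I := I1 ^ d with hI
  have hIpos : 0 < I := pow_pos hI1pos d
  have bmp : ∀ f : Fin d → ℝ → ℝ, (∀ i, BM (f i)) → BM (fun t : Fin d → ℝ => ∏ i, f i (t i)) :=
    fun f hf => BM.prod _ fun i _ => (hf i).comp (measurable_pi_apply i)
  have fub : ∀ f : Fin d → ℝ → ℝ, ∫ t, ∏ i, f i (t i) ∂ν = ∏ i, ∫ s, f i s ∂mu :=
    fun f => integral_fintype_prod_eq_prod f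
  set F : (Fin d → ℝ) → ℝ := fun t => ∏ i, cl (t i) with hF
  set W : (Fin d → ℝ) → ℝ := fun t => ∏ i, w (t i) with hW
  have bF : BM F := bmp (fun _ => cl) fun _ => bm_cl
  have bW : BM W := bmp (fun _ => w) fun _ => bw
  have hF0 : ∀ t, 0 ≤ F t := fun t => Finset.prod_nonneg fun i _ => cl_nonneg _
  have hW0 : ∀ t, 0 ≤ W t := fun t => Finset.prod_nonneg fun i _ => hw0 _
  have hpI : ∫ t, ∏ i, cl (t i) ^ p ∂ν = I := by
    rw [fub (fun _ s => cl s ^ p)]; simp [hI, hI1]
  have iF : ∫ t, |F t| ^ p ∂ν = I := by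
    rw [← hpI]; congr 1; ext t
    rw [abs_of_nonneg (hF0 t), hF, Real.finsetProd_rpow _ _ fun i _ => cl_nonneg _]
  have iW : ∫ t, W t ^ q ∂ν = I := by
    rw [← hpI]; congr 1; ext t
    rw [hW]; simp only
    rw [← Real.finsetProd_rpow _ _ fun i _ => hw0 _]; simp only [hwq]
  have iFW : ∫ t, F t * W t ∂ν = I := by
    rw [← hpI]; congr 1; ext t
    simp only [hF, hW, ← Finset.prod_mul_distrib, hwp]
  set φ : Option Bool → ℝ → ℝ := fun o t => match o with
    | none => 1 - b false t - b true t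
    | some s => b s t with hφ
  have bφ : ∀ o, BM (φ o) := by
    rintro (_ | s)
    · exact ((BM.const 1).sub (bb false)).sub (bb true)
    · exact bb s
  set sd : Fin n → Fin d → Bool := fun j i => decide (a0 < x j i) with hsd
  set T : (Fin d → Option Bool) → (Fin d → ℝ) → ℝ := fun c t => ∏ i, φ (c i) (t i) with hT
  have bT : ∀ c, BM (T c) := fun c => bmp (fun i => φ (c i)) fun i => bφ _
  set good : (Fin d → Option Bool) → Prop := fun c => ∀ j, ∃ i, c i = some (!sd j i) with hgood
  set g : (Fin d → ℝ) → ℝ := fun t => ∑ c ∈ Finset.univ.filter good, T c t with hg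
  set o : (Fin d → ℝ) → ℝ := fun t => ∑ c ∈ Finset.univ.filter (fun c => ¬ good c), T c t with ho
  have bg : BM g := BM.sum _ fun c _ => bT c
  have bo : BM o := BM.sum _ fun c _ => bT c
  have hgo : ∀ t, g t = 1 - o t := by
    intro t
    have h1 : g t + o t = ∑ c, T c t := Finset.sum_filter_add_sum_filter_not _ _ _
    have h2 : ∑ c, T c t = ∏ i, ∑ k : Option Bool, φ k (t i) := by
      rw [Finset.prod_univ_sum]; simp [hT]
    have h3 : ∀ s, ∑ k : Option Bool, φ k s = 1 := by
      intro s; simp [hφ, Fintype.sum_option]; ring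
    simp only [h3, Finset.prod_const_one] at h2
    linarith
  set β : Bool → ℝ → ℝ := fun s t => |1 - b false t - b true t| + |b s t| with hβdef
  have bβ : ∀ s, BM (β s) := fun s =>
    ((((BM.const 1).sub (bb false)).sub (bb true)).abs).add (bb s).abs
  have hβ0 : ∀ s t, 0 ≤ β s t := fun s t => by positivity
  set B : Fin n → (Fin d → ℝ) → ℝ := fun j t => ∏ i, β (sd j i) (t i) with hB
  have bB : ∀ j, BM (B j) := fun j => bmp (fun i => β (sd j i)) fun i => bβ _
  have hB0 : ∀ j t, 0 ≤ B j t := fun j t => Finset.prod_nonneg fun i _ => hβ0 _ _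
  have hoB : ∀ t, |o t| ≤ ∑ j, B j t := by
    intro t
    have h1 : ∀ j, B j t = ∑ c ∈ Fintype.piFinset (fun i => ({none, some (sd j i)} :
        Finset (Option Bool))), |T c t| := by
      intro j
      simp only [hT, Finset.abs_prod]
      rw [← Finset.prod_univ_sum (fun i => ({none, some (sd j i)} : Finset (Option Bool)))
        (fun i k => |φ k (t i)|)]
      refine Finset.prod_congr rfl fun i _ => ?_
      rw [Finset.sum_pair (by simp)]
    calc |o t| ≤ ∑ c ∈ Finset.univ.filter (fun c => ¬ good c), |T c t| :=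
          Finset.abs_sum_le_sum_abs _ _
      _ ≤ ∑ c ∈ Finset.univ.biUnion (fun j => Fintype.piFinset (fun i => ({none, some (sd j i)} :
        Finset (Option Bool)))), |T c t| := by
          apply Finset.sum_le_sum_of_subset_of_nonneg _ fun _ _ _ => abs_nonneg _
          intro c hc
          have hc' := (Finset.mem_filter.mp hc).2
          simp only [hgood, not_forall, not_exists] at hc'
          obtain ⟨j, hj⟩ := hc'
          refine Finset.mem_biUnion.mpr ⟨j, Finset.mem_univ _, Fintype.mem_piFinset.mpr fun i => ?_⟩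
          have := hj i
          revert this
          generalize sd j i = u
          generalize c i = v
          revert u v
          decide
      _ ≤ ∑ j, ∑ c ∈ Fintype.piFinset (fun i => ({none, some (sd j i)} :
        Finset (Option Bool))), |T c t| := sum_biUnion_le' _ _
          fun _ => abs_nonneg _
      _ = _ := by simp only [h1]
  have iB : ∀ j, ∫ t, (W t * B j t) ^ q ∂ν ≤ (ρ ^ d) ^ q * I := by
    intro j
    have h1 : ∀ t, (W t * B j t) ^ q = ∏ i, (w (t i) * β (sd j i) (t i)) ^ q := by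
      intro t
      rw [Real.finsetProd_rpow _ _ fun i _ => mul_nonneg (hw0 _) (hβ0 _ _)]
      simp only [hW, hB, Finset.prod_mul_distrib]
    simp only [h1]
    rw [fub (fun i s => (w s * β (sd j i) s) ^ q)]
    have h2 : (ρ ^ d) ^ q * I = ∏ _i : Fin d, η * I1 := by
      rw [← Real.rpow_natCast, ← Real.rpow_mul hρ0.le, mul_comm (d : ℝ) q, Real.rpow_mul hρ0.le,
        hρq, Real.rpow_natCast, hI, ← mul_pow]; simp
    rw [h2]
    apply Finset.prod_le_prod
    · intro i _
      exact integral_nonneg fun s => Real.rpow_nonneg (mul_nonneg (hw0 _) (hβ0 _ _)) _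
    · intro i _; exact hβ _
  set ind : Fin n → (Fin d → ℝ) → ℝ := fun j =>
    Set.indicator {y : Fin d → ℝ | ∀ i, x j i < y i} (fun _ => (1 : ℝ)) with hind
  have hind' : ∀ j t, ind j t = ∏ i, (Ioi (x j i)).indicator (fun _ => (1 : ℝ)) (t i) := by
    intro j t
    by_cases h : ∀ i, x j i < t i
    · rw [hind]; simp only
      rw [indicator_of_mem (by exact h), Finset.prod_eq_one]
      intro i _; rw [indicator_of_mem (by exact h i)]
    · rw [hind]; simp only
      rw [indicator_of_notMem (by exact h)]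
      push Not at h
      obtain ⟨i, hi⟩ := h
      rw [Finset.prod_eq_zero (Finset.mem_univ i)]
      rw [indicator_of_notMem (by simpa using hi)]
  have bind : ∀ j, BM (ind j) := by
    intro j
    have := bmp (fun i => (Ioi (x j i)).indicator (fun _ => (1 : ℝ)))
      fun i => BM.ind measurableSet_Ioi
    convert this using 1
    ext t; exact hind' j t
  have orth : ∀ j, ∫ t, ind j t * (W t * g t) ∂ν = 0 := by
    intro j
    have h1 : ∀ t, ind j t * (W t * g t) = ∑ c ∈ Finset.univ.filter good,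
        ∏ i, ((Ioi (x j i)).indicator (fun _ => (1 : ℝ)) (t i) * (w (t i) * φ (c i) (t i))) := by
      intro t
      simp only [hg, hT, hW, hind', Finset.mul_sum, Finset.prod_mul_distrib]
    simp only [h1]
    rw [integral_finsetSum]
    · apply Finset.sum_eq_zero
      intro c hc
      obtain ⟨i, hi⟩ := (Finset.mem_filter.mp hc).2 j
      rw [fub (fun i s => (Ioi (x j i)).indicator (fun _ => (1 : ℝ)) s * (w s * φ (c i) s))]
      apply Finset.prod_eq_zero (Finset.mem_univ i)
      rw [hi]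
      by_cases hx : a0 < x j i
      · have e : sd j i = true := by simp [hsd, hx]
        rw [e]
        have : ∀ s, (Ioi (x j i)).indicator (fun _ => (1 : ℝ)) s * (w s * φ (some (!true)) s) = 0 := by
          intro s
          by_cases hs : s ∈ Ioi (x j i)
          · have : b false s = 0 := hbf s (hx.trans hs)
            simp [hφ, this]
          · simp [indicator_of_notMem hs]
        simp only [this, integral_zero]
      · have e : sd j i = false := by simp [hsd, hx]
        rw [e, ← hint true]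
        congr 1; ext s
        by_cases hs : s ∈ Ioi (x j i)
        · simp [hφ, indicator_of_mem hs, hw]
        · have : b true s = 0 := hbt s (le_trans (not_lt.mp hs) (not_lt.mp hx))
          simp [hφ, this]
    · intro c _
      exact (bmp (fun i s => (Ioi (x j i)).indicator (fun _ => (1 : ℝ)) s * (w s * φ (c i) s))
        fun i => (BM.ind measurableSet_Ioi).mul (bw.mul (bφ _))).integrable _
  set Δ : (Fin d → ℝ) → ℝ := fun t => F t - ∑ j, a j * ind j t with hΔ
  have bD : BM (fun t => ∑ j, a j * ind j t) := BM.sum _ fun j _ => (BM.const _).mul (bind j)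
  have bΔ : BM Δ := bF.sub bD
  have hypΔ : ∫ t, |Δ t| ^ p ∂ν ≤ ε ^ p * I := by rw [← iF]; exact hyp
  have key : ∫ t, Δ t * (W t * g t) ∂ν = ∫ t, F t * (W t * g t) ∂ν := by
    have h1 : ∀ t, Δ t * (W t * g t) =
        F t * (W t * g t) - ∑ j, a j * (ind j t * (W t * g t)) := by
      intro t
      simp only [hΔ, sub_mul, Finset.sum_mul, mul_assoc]
    simp only [h1]
    rw [integral_sub ((bF.mul (bW.mul bg)).integrable _)
      ((BM.sum _ fun j _ => (BM.const _).mul ((bind j).mul (bW.mul bg))).integrable _),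
      integral_finsetSum _ fun j _ => ((BM.const _).mul ((bind j).mul (bW.mul bg))).integrable _]
    simp only [integral_const_mul, orth]; simp
  have hl : 0 < ρ ^ d := pow_pos hρ0 d
  have bound : ∀ (G : (Fin d → ℝ) → ℝ) (e : ℝ), BM G → 0 < e → ∫ t, |G t| ^ p ∂ν ≤ e ^ p * I →
      |∫ t, G t * (W t * o t) ∂ν| ≤ n * (e * ρ ^ d * I) := by
    intro G e bG he hG
    calc |∫ t, G t * (W t * o t) ∂ν| ≤ ∫ t, |G t * (W t * o t)| ∂ν := abs_integral_le_integral_abs
      _ ≤ ∫ t, ∑ j, |G t| * (W t * B j t) ∂ν := by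
        apply integral_mono ((bG.mul (bW.mul bo)).abs.integrable _)
          ((BM.sum _ fun j _ => bG.abs.mul (bW.mul (bB j))).integrable _)
        intro t
        simp only
        rw [abs_mul, abs_mul, abs_of_nonneg (hW0 t), ← Finset.mul_sum, ← Finset.mul_sum]
        exact mul_le_mul_of_nonneg_left (mul_le_mul_of_nonneg_left (hoB t) (hW0 t)) (abs_nonneg _)
      _ = ∑ j, ∫ t, |G t| * (W t * B j t) ∂ν :=
        integral_finsetSum _ fun j _ => (bG.abs.mul (bW.mul (bB j))).integrable _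
      _ ≤ ∑ _j : Fin n, e * ρ ^ d * I := Finset.sum_le_sum fun j _ =>
        young_int ν hpq bG (bW.mul (bB j)) (fun t => mul_nonneg (hW0 t) (hB0 j t)) he hl hG (iB j)
      _ = _ := by simp
  have split : ∀ (G : (Fin d → ℝ) → ℝ), BM G → ∫ t, G t * (W t * g t) ∂ν =
      ∫ t, G t * W t ∂ν - ∫ t, G t * (W t * o t) ∂ν := by
    intro G bG
    rw [← integral_sub ((bG.mul bW).integrable _) ((bG.mul (bW.mul bo)).integrable _)]
    congr 1; ext t; rw [hgo]; ring
  have k1 := bound F 1 bF one_pos (by rw [iF]; simp)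
  have k2 := bound Δ ε bΔ hε hypΔ
  have k3 : ∫ t, Δ t * W t ∂ν ≤ ε * 1 * I := by
    refine le_trans (integral_mono ((bΔ.mul bW).integrable _) ((bΔ.abs.mul bW).integrable _)
      fun t => mul_le_mul_of_nonneg_right (le_abs_self _) (hW0 t)) ?_
    exact young_int ν hpq bΔ bW hW0 hε one_pos hypΔ (by rw [iW]; simp)
  rw [split _ bΔ, split _ bF, iFW] at key
  have k4 := (abs_le.mp k1).2
  have k5 := (abs_le.mp k2).1
  have k6 : I * (1 - n * ρ ^ d) ≤ I * (ε * (1 + n * ρ ^ d)) := by nlinarith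
  have k7 := le_of_mul_le_mul_left k6 hIpos
  have k8 : 0 ≤ (n : ℝ) * ρ ^ d := by positivity
  nlinarith

theorem restrict_eq (d : ℕ) :
    (volume : Measure (Fin d → ℝ)).restrict (Icc 0 1) = Measure.pi fun _ : Fin d => mu := by
  rw [← Set.pi_univ_Icc, volume_pi, Measure.restrict_pi_pi]
  rfl

end Pool.Agent.H461Z.Disc
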