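import Mathlib

set_option autoImplicit false

namespace Pool.Agent.H461Z.Disc

open MeasureTheory Set

/-- bounded measurable functions -/
def BM {α : Type} [MeasurableSpace α] (f : α → ℝ) : Prop :=
  Measurable f ∧ ∃ C, ∀ x, |f x| ≤ C

section BM
variable {α : Type} [MeasurableSpace α]

theorem BM.integrable {f : α → ℝ} (h : BM f) (μ : Measure α) [IsFiniteMeasure μ] :
    Integrable f μ := by
  obtain ⟨h1, C, hC⟩ := h
  exact Integrable.of_bound h1.aestronglyMeasurable C (Filter.Eventually.of_forall hC)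

theorem BM.const (c : ℝ) : BM (fun _ : α => c) := ⟨measurable_const, |c|, fun _ => le_rfl⟩

theorem BM.add {f g : α → ℝ} (hf : BM f) (hg : BM g) : BM (fun x => f x + g x) := by
  obtain ⟨h1, C, hC⟩ := hf
  obtain ⟨h2, D, hD⟩ := hg
  exact ⟨h1.add h2, C + D, fun x => (abs_add_le _ _).trans (add_le_add (hC x) (hD x))⟩

theorem BM.mul {f g : α → ℝ} (hf : BM f) (hg : BM g) : BM (fun x => f x * g x) := by
  obtain ⟨h1, C, hC⟩ := hf
  obtain ⟨h2, D, hD⟩ := hg
  refine ⟨h1.mul h2, C * D, fun x => ?_⟩
  rw [abs_mul]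
  exact mul_le_mul (hC x) (hD x) (abs_nonneg _) ((abs_nonneg _).trans (hC x))

theorem BM.neg {f : α → ℝ} (hf : BM f) : BM (fun x => -f x) := by
  obtain ⟨h1, C, hC⟩ := hf
  exact ⟨h1.neg, C, fun x => by rw [abs_neg]; exact hC x⟩

theorem BM.sub {f g : α → ℝ} (hf : BM f) (hg : BM g) : BM (fun x => f x - g x) := by
  simpa [sub_eq_add_neg] using hf.add hg.neg

theorem BM.abs {f : α → ℝ} (hf : BM f) : BM (fun x => |f x|) := by
  obtain ⟨h1, C, hC⟩ := hf
  exact ⟨h1.abs, C, fun x => by rw [abs_abs]; exact hC x⟩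

theorem BM.rpow {f : α → ℝ} (hf : BM f) (h0 : ∀ x, 0 ≤ f x) {p : ℝ} (hp : 0 ≤ p) :
    BM (fun x => f x ^ p) := by
  obtain ⟨h1, C, hC⟩ := hf
  refine ⟨h1.pow_const p, C ^ p, fun x => ?_⟩
  rw [abs_of_nonneg (Real.rpow_nonneg (h0 x) p)]
  exact Real.rpow_le_rpow (h0 x) ((le_abs_self _).trans (hC x)) hp

theorem BM.sum {ι : Type} (s : Finset ι) {f : ι → α → ℝ} (hf : ∀ i ∈ s, BM (f i)) :
    BM (fun x => ∑ i ∈ s, f i x) := by
  classical
  induction s using Finset.induction_on with
  | empty => simpa using BM.const 0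
  | insert a s ha ih =>
    simp only [Finset.sum_insert ha]
    exact (hf a (Finset.mem_insert_self _ _)).add
      (ih fun i hi => hf i (Finset.mem_insert_of_mem hi))

theorem BM.prod {ι : Type} (s : Finset ι) {f : ι → α → ℝ} (hf : ∀ i ∈ s, BM (f i)) :
    BM (fun x => ∏ i ∈ s, f i x) := by
  classical
  induction s using Finset.induction_on with
  | empty => simpa using BM.const 1
  | insert a s ha ih =>
    simp only [Finset.prod_insert ha]
    exact (hf a (Finset.mem_insert_self _ _)).mul
      (ih fun i hi => hf i (Finset.mem_insert_of_mem hi))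

theorem BM.comp {β : Type} [MeasurableSpace β] {f : α → ℝ} (hf : BM f) {g : β → α}
    (hg : Measurable g) : BM (fun x => f (g x)) := by
  obtain ⟨h1, C, hC⟩ := hf
  exact ⟨h1.comp hg, C, fun x => hC _⟩

theorem BM.ind {s : Set α} (hs : MeasurableSet s) : BM (s.indicator (fun _ => (1 : ℝ))) := by
  refine ⟨measurable_const.indicator hs, 1, fun x => ?_⟩
  by_cases h : x ∈ s <;> simp [h]

end BM

/-- clamp to the unit interval -/
noncomputable def cl (t : ℝ) : ℝ := max 0 (min t 1)

theorem cl_nonneg (t : ℝ) : 0 ≤ cl t := le_max_left _ _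
theorem cl_le_one (t : ℝ) : cl t ≤ 1 := max_le zero_le_one (min_le_right _ _)
theorem cl_eq {t : ℝ} (h0 : 0 ≤ t) (h1 : t ≤ 1) : cl t = t := by
  unfold cl; rw [min_eq_left h1, max_eq_right h0]
theorem bm_cl : BM cl :=
  ⟨by unfold cl; fun_prop, 1, fun t => by rw [abs_of_nonneg (cl_nonneg t)]; exact cl_le_one t⟩

/-- Lebesgue measure on the unit interval -/
noncomputable def mu : Measure ℝ := volume.restrict (Icc 0 1)

instance : IsFiniteMeasure mu := by
  unfold mu; infer_instance

theorem int_pos {r : ℝ} (hr : 0 ≤ r) {u v : ℝ} (hu : 0 ≤ u) (huv : u < v) (hv : v ≤ 1) :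
    0 < ∫ t, cl t ^ r * (Ioc u v).indicator (fun _ => (1 : ℝ)) t ∂mu := by
  rw [integral_pos_iff_support_of_nonneg]
  · refine lt_of_lt_of_le ?_ (measure_mono (s := Ioc u v) ?_)
    · unfold mu
      rw [Measure.restrict_apply measurableSet_Ioc, inter_eq_left.mpr]
      · simpa using huv
      · intro t ht; exact ⟨hu.trans ht.1.le, ht.2.trans hv⟩
    · intro t ht
      have h1 : 0 < t := lt_of_le_of_lt hu ht.1
      rw [Function.mem_support, indicator_of_mem ht, mul_one, cl_eq h1.le (ht.2.trans hv)]
      exact (Real.rpow_pos_of_pos h1 r).ne'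
  · intro t
    exact mul_nonneg (Real.rpow_nonneg (cl_nonneg t) r) (indicator_nonneg (fun _ _ => zero_le_one) t)
  · exact ((bm_cl.rpow cl_nonneg hr).mul (BM.ind measurableSet_Ioc)).integrable _

theorem conv_bound {q θ x : ℝ} (hq : 1 ≤ q) (h0 : 0 ≤ θ) (h1 : θ ≤ 1) (hx0 : 0 ≤ x)
    (hx : x ≤ 1 + 2 * θ) : x ^ q ≤ 1 + 3 ^ q * θ := by
  have h := (convexOn_rpow hq).2 (show (1 : ℝ) ∈ Ici 0 by simp) (show (3 : ℝ) ∈ Ici 0 by simp)
    (sub_nonneg.mpr h1) h0 (by ring)
  simp only [smul_eq_mul, Real.one_rpow] at h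
  have h2 : x ^ q ≤ ((1 - θ) * 1 + θ * 3) ^ q :=
    Real.rpow_le_rpow hx0 (by linarith) (by linarith)
  nlinarith

theorem uni {p q : ℝ} (hpq : p.HolderConjugate q) :
    ∃ a : ℝ, ∃ b : Bool → ℝ → ℝ, ∃ η : ℝ, 0 < η ∧ η < 1 ∧ (∀ s, BM (b s)) ∧
      (∀ t, a < t → b false t = 0) ∧ (∀ t, t ≤ a → b true t = 0) ∧
      (∀ s, ∫ t, cl t ^ (p - 1) * b s t ∂mu = 0) ∧
      ∀ s, ∫ t, (cl t ^ (p - 1) * (|1 - b false t - b true t| + |b s t|)) ^ q ∂mu ≤
        η * ∫ t, cl t ^ p ∂mu := by
  have hp1 : 1 < p := hpq.lt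
  have hq1 : 1 < q := hpq.symm.lt
  have hp0 : 0 ≤ p - 1 := by linarith
  set L : ℝ := 3 ^ q with hL
  have hL1 : 1 ≤ L := Real.one_le_rpow (by norm_num) (by linarith)
  set a : ℝ := 1 / (16 * L) with ha
  have ha0 : 0 < a := by positivity
  have haL : a * L = 1 / 16 := by rw [ha]; field_simp
  have ha1 : a ≤ 1 / 16 := by nlinarith
  set r : ℝ := a / (8 * L) with hr
  have hr0 : 0 < r := by positivity
  have hrL : r * L = a / 8 := by rw [hr]; field_simp
  have hr1 : r ≤ a / 8 := by nlinarith
  set w : ℝ → ℝ := fun t => cl t ^ (p - 1) with hw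
  have bw : BM w := bm_cl.rpow cl_nonneg hp0
  set i1 := (Ioc 0 r).indicator (fun _ => (1 : ℝ)) with hi1
  set i2 := (Ioc (a / 2) a).indicator (fun _ => (1 : ℝ)) with hi2
  set i3 := (Ioc a (2 * a)).indicator (fun _ => (1 : ℝ)) with hi3
  set i4 := (Ioc (1 / 2 : ℝ) 1).indicator (fun _ => (1 : ℝ)) with hi4
  have b1 : BM i1 := BM.ind measurableSet_Ioc
  have b2 : BM i2 := BM.ind measurableSet_Ioc
  have b3 : BM i3 := BM.ind measurableSet_Ioc
  have b4 : BM i4 := BM.ind measurableSet_Ioc
  set n1 := ∫ t, w t * i1 t ∂mu with hn1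
  set n2 := ∫ t, w t * i2 t ∂mu with hn2
  set n3 := ∫ t, w t * i3 t ∂mu with hn3
  set n4 := ∫ t, w t * i4 t ∂mu with hn4
  have p1 : 0 < n1 := int_pos hp0 le_rfl hr0 (by linarith)
  have p2 : 0 < n2 := int_pos hp0 (by linarith) (by linarith) (by linarith)
  have p3 : 0 < n3 := int_pos hp0 (by linarith) (by linarith) (by linarith)
  have p4 : 0 < n4 := int_pos hp0 (by linarith) (by linarith) (by linarith)
  set I := ∫ t, cl t ^ p ∂mu with hI
  have hIpos : 0 < I := by
    have h1 := int_pos (r := p) (by linarith) le_rfl zero_lt_one le_rfl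
    refine lt_of_lt_of_le h1 (integral_mono
      (((bm_cl.rpow cl_nonneg (by linarith)).mul (BM.ind measurableSet_Ioc)).integrable _)
      ((bm_cl.rpow cl_nonneg (by linarith)).integrable _) fun t => ?_)
    have := Real.rpow_nonneg (cl_nonneg t) p
    by_cases h : t ∈ Ioc (0 : ℝ) 1 <;> simp [h, this]
  set m := min (min (min (a * n1) (a * n2)) (min n3 n4)) I with hm
  have hm0 : 0 < m := by positivity
  have m1 : m ≤ a * n1 := (min_le_left _ _).trans ((min_le_left _ _).trans (min_le_left _ _))
  have m2 : m ≤ a * n2 := (min_le_left _ _).trans ((min_le_left _ _).trans (min_le_right _ _))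
  have m3 : m ≤ n3 := (min_le_left _ _).trans ((min_le_right _ _).trans (min_le_left _ _))
  have m4 : m ≤ n4 := (min_le_left _ _).trans ((min_le_right _ _).trans (min_le_right _ _))
  have m5 : m ≤ I := min_le_right _ _
  set θ1 := m / (a * n1) with hθ1
  set θ2 := m / (a * n2) with hθ2
  set θ3 := m / n3 with hθ3
  set θ4 := m / n4 with hθ4
  have t1 : 0 < θ1 ∧ θ1 ≤ 1 := ⟨by positivity, (div_le_one (by positivity)).mpr m1⟩
  have t2 : 0 < θ2 ∧ θ2 ≤ 1 := ⟨by positivity, (div_le_one (by positivity)).mpr m2⟩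
  have t3 : 0 < θ3 ∧ θ3 ≤ 1 := ⟨by positivity, (div_le_one (by positivity)).mpr m3⟩
  have t4 : 0 < θ4 ∧ θ4 ≤ 1 := ⟨by positivity, (div_le_one (by positivity)).mpr m4⟩
  have e1 : θ1 * n1 = m / a := by rw [hθ1]; field_simp
  have e2 : θ2 * n2 = m / a := by rw [hθ2]; field_simp
  have e3 : θ3 * n3 = m := by rw [hθ3]; field_simp
  have e4 : θ4 * n4 = m := by rw [hθ4]; field_simp
  have lin : ∀ c0 c1 c2 c3 c4 : ℝ, ∫ t, (c0 * cl t ^ p + c1 * (w t * i1 t) + c2 * (w t * i2 t)
      + c3 * (w t * i3 t) + c4 * (w t * i4 t)) ∂mu =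
      c0 * I + c1 * n1 + c2 * n2 + c3 * n3 + c4 * n4 := by
    intro c0 c1 c2 c3 c4
    have k0 : BM (fun t => c0 * cl t ^ p) := (BM.const c0).mul (bm_cl.rpow cl_nonneg (by linarith))
    have k1 := (BM.const c1).mul (bw.mul b1)
    have k2 := (BM.const c2).mul (bw.mul b2)
    have k3 := (BM.const c3).mul (bw.mul b3)
    have k4 := (BM.const c4).mul (bw.mul b4)
    rw [integral_add ((((k0.add k1).add k2).add k3).integrable _) (k4.integrable _),
      integral_add (((k0.add k1).add k2).integrable _) (k3.integrable _),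
      integral_add ((k0.add k1).integrable _) (k2.integrable _),
      integral_add (k0.integrable _) (k1.integrable _)]
    simp only [integral_const_mul]
    rfl
  set b : Bool → ℝ → ℝ := fun s t =>
    if s then -θ3 * i3 t + θ4 * i4 t else -θ1 * i1 t + θ2 * i2 t with hb
  have bb : ∀ s, BM (b s) := by
    intro s
    cases s
    · exact ((BM.const _).mul b1).add ((BM.const _).mul b2)
    · exact ((BM.const _).mul b3).add ((BM.const _).mul b4)
  refine ⟨a, b, 1 - m / (4 * I), ?_, ?_, bb, ?_, ?_, ?_, ?_⟩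
  · have : m / (4 * I) ≤ 1 / 4 := by
      rw [div_le_iff₀ (by positivity)]; linarith
    linarith
  · have : 0 < m / (4 * I) := by positivity
    linarith
  · intro t ht
    have h1 : t ∉ Ioc 0 r := fun h => by have := h.2; linarith
    have h2 : t ∉ Ioc (a / 2) a := fun h => by have := h.2; linarith
    simp [hb, hi1, hi2, indicator_of_notMem h1, indicator_of_notMem h2]
  · intro t ht
    have h1 : t ∉ Ioc a (2 * a) := fun h => by have := h.1; linarith
    have h2 : t ∉ Ioc (1 / 2 : ℝ) 1 := fun h => by have := h.1; linarith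
    simp only [hb, hi3, hi4, indicator_of_notMem h1, indicator_of_notMem h2]; simp
  · intro s
    cases s
    · have := lin 0 (-θ1) θ2 0 0
      rw [show (0 : ℝ) * I + -θ1 * n1 + θ2 * n2 + 0 * n3 + 0 * n4 = 0 by linarith] at this
      rw [← this]; congr 1; ext t; simp only [hb, hw]; simp; ring
    · have := lin 0 0 0 (-θ3) θ4
      rw [show (0 : ℝ) * I + 0 * n1 + 0 * n2 + -θ3 * n3 + θ4 * n4 = 0 by linarith] at this
      rw [← this]; congr 1; ext t; simp only [hb, hw]; simp; ring
  · intro s
    set c2 : ℝ := if s then -(a / 2 * θ2) else 0 with hc2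
    set c4 : ℝ := if s then 0 else -(1 / 2 * θ4) with hc4
    have hl := lin 1 (L * r * θ1) c2 (L * (2 * a) * θ3) c4
    have hval : 1 * I + L * r * θ1 * n1 + c2 * n2 + L * (2 * a) * θ3 * n3 + c4 * n4 =
        (1 - m / (4 * I)) * I := by
      have f1 : L * r * θ1 * n1 = m / 8 := by
        rw [mul_assoc, e1, mul_comm L r, hrL]; field_simp
      have f3 : L * (2 * a) * θ3 * n3 = m / 8 := by
        rw [mul_assoc, e3, show L * (2 * a) = 2 * (a * L) by ring, haL]; ring
      have f2 : c2 * n2 + c4 * n4 = -(m / 2) := by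
        cases s
        · simp only [hc2, hc4]; simp; linarith
        · simp only [hc2, hc4, if_true]
          rw [neg_mul, mul_assoc, e2]; field_simp; ring
      have f4 : (1 - m / (4 * I)) * I = I - m / 4 := by field_simp
      rw [f4]; linarith
    rw [← hval, ← hl]
    have bβ : BM (fun t => |1 - b false t - b true t| + |b s t|) :=
      ((((BM.const 1).sub (bb false)).sub (bb true)).abs).add (bb s).abs
    apply integral_mono
    · exact ((bw.mul bβ).rpow (fun t => mul_nonneg (Real.rpow_nonneg (cl_nonneg t) _)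
        (by positivity)) (by linarith)).integrable _
    · exact ((((((BM.const 1).mul (bm_cl.rpow cl_nonneg (by linarith))).add
        ((BM.const _).mul (bw.mul b1))).add ((BM.const _).mul (bw.mul b2))).add
        ((BM.const _).mul (bw.mul b3))).add ((BM.const _).mul (bw.mul b4))).integrable _
    intro t
    have hw0 : 0 ≤ w t := Real.rpow_nonneg (cl_nonneg t) _
    have hwq : w t ^ q = cl t ^ p := by
      rw [hw]; simp only
      rw [← Real.rpow_mul (cl_nonneg t), hpq.sub_one_mul_conj]
    have hwp : cl t ^ p = cl t * w t := by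
      rw [hw]; simp only
      rw [mul_comm, ← Real.rpow_add_one' (cl_nonneg t) (by linarith)]; simp
    show (w t * _) ^ q ≤ _
    simp only
    rw [Real.mul_rpow hw0 (by positivity), hwq, hwp]
    by_cases h1 : t ∈ Ioc 0 r
    · have h2 : t ∉ Ioc (a / 2) a := fun h => by have := h.1; have := h1.2; linarith
      have h3 : t ∉ Ioc a (2 * a) := fun h => by have := h.1; have := h1.2; linarith
      have h4 : t ∉ Ioc (1 / 2 : ℝ) 1 := fun h => by have := h.1; have := h1.2; linarith
      have hc : cl t = t := cl_eq h1.1.le (by have := h1.2; linarith)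
      have hβ : (|1 - b false t - b true t| + |b s t|) ^ q ≤ 1 + L * θ1 := by
        apply conv_bound hq1.le t1.1.le t1.2 (by positivity)
        cases s <;> simp only [hb, hi1, hi2, hi3, hi4, indicator_of_mem h1, indicator_of_notMem h2,
          indicator_of_notMem h3, indicator_of_notMem h4] <;> simp <;>
          rw [abs_of_pos (by linarith [t1.1])] <;> try rw [abs_of_pos t1.1]
        all_goals linarith [t1.1]
      simp only [hi1, hi2, hi3, hi4, indicator_of_mem h1, indicator_of_notMem h2,
          indicator_of_notMem h3, indicator_of_notMem h4, hc]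
      have k1 : t * w t * (|1 - b false t - b true t| + |b s t|) ^ q ≤ t * w t * (1 + L * θ1) :=
        mul_le_mul_of_nonneg_left hβ (mul_nonneg h1.1.le hw0)
      have k2 : t * (w t * (L * θ1)) ≤ r * (w t * (L * θ1)) :=
        mul_le_mul_of_nonneg_right h1.2 (mul_nonneg hw0 (mul_nonneg (by linarith) t1.1.le))
      nlinarith
    by_cases h3 : t ∈ Ioc a (2 * a)
    · have h2 : t ∉ Ioc (a / 2) a := fun h => by have := h.2; have := h3.1; linarith
      have h4 : t ∉ Ioc (1 / 2 : ℝ) 1 := fun h => by have := h.1; have := h3.2; linarith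
      have ht0 : 0 ≤ t := by have := h3.1; linarith
      have hc : cl t = t := cl_eq ht0 (by have := h3.2; linarith)
      have hβ : (|1 - b false t - b true t| + |b s t|) ^ q ≤ 1 + L * θ3 := by
        apply conv_bound hq1.le t3.1.le t3.2 (by positivity)
        cases s <;> simp only [hb, hi1, hi2, hi3, hi4, indicator_of_mem h3, indicator_of_notMem h2,
          indicator_of_notMem h1, indicator_of_notMem h4] <;> simp <;>
          rw [abs_of_pos (by linarith [t3.1])] <;> try rw [abs_of_pos t3.1]
        all_goals linarith [t3.1]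
      simp only [hi1, hi2, hi3, hi4, indicator_of_mem h3, indicator_of_notMem h2,
          indicator_of_notMem h1, indicator_of_notMem h4, hc]
      have k1 : t * w t * (|1 - b false t - b true t| + |b s t|) ^ q ≤ t * w t * (1 + L * θ3) :=
        mul_le_mul_of_nonneg_left hβ (mul_nonneg ht0 hw0)
      have k2 : t * (w t * (L * θ3)) ≤ 2 * a * (w t * (L * θ3)) :=
        mul_le_mul_of_nonneg_right h3.2 (mul_nonneg hw0 (mul_nonneg (by linarith) t3.1.le))
      nlinarith
    by_cases h2 : t ∈ Ioc (a / 2) a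
    · have h4 : t ∉ Ioc (1 / 2 : ℝ) 1 := fun h => by have := h.1; have := h2.2; linarith
      have ht0 : 0 ≤ t := by have := h2.1; linarith
      have hc : cl t = t := cl_eq ht0 (by have := h2.2; linarith)
      cases s
      · have hβ : |1 - b false t - b true t| + |b false t| = 1 := by
          simp only [hb, hi1, hi2, hi3, hi4, indicator_of_mem h2, indicator_of_notMem h3,
            indicator_of_notMem h1, indicator_of_notMem h4]
          simp
          rw [abs_of_nonneg (by linarith [t2.2]), abs_of_pos t2.1]; ring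
        rw [hβ, Real.one_rpow]
        simp only [hi1, hi2, hi3, hi4, indicator_of_mem h2, indicator_of_notMem h3,
          indicator_of_notMem h1, indicator_of_notMem h4, hc2]
        simp
      · have hβ : |1 - b false t - b true t| + |b true t| = 1 - θ2 := by
          simp only [hb, hi1, hi2, hi3, hi4, indicator_of_mem h2, indicator_of_notMem h3,
            indicator_of_notMem h1, indicator_of_notMem h4]
          simp
          linarith [t2.2]
        have hβ' : (1 - θ2) ^ q ≤ 1 - θ2 :=
          Real.rpow_le_self_of_le_one (by linarith [t2.2]) (by linarith [t2.1]) hq1.le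
        rw [hβ]
        simp only [hi1, hi2, hi3, hi4, indicator_of_mem h2, indicator_of_notMem h3,
          indicator_of_notMem h1, indicator_of_notMem h4, hc2, hc, if_true]
        have k1 : t * w t * (1 - θ2) ^ q ≤ t * w t * (1 - θ2) :=
          mul_le_mul_of_nonneg_left hβ' (mul_nonneg ht0 hw0)
        have k2 : a / 2 * (w t * θ2) ≤ t * (w t * θ2) :=
          mul_le_mul_of_nonneg_right h2.1.le (mul_nonneg hw0 t2.1.le)
        nlinarith
    by_cases h4 : t ∈ Ioc (1 / 2 : ℝ) 1
    · have ht0 : 0 ≤ t := by have := h4.1; linarith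
      have hc : cl t = t := cl_eq ht0 h4.2
      cases s
      · have hβ : |1 - b false t - b true t| + |b false t| = 1 - θ4 := by
          simp only [hb, hi1, hi2, hi3, hi4, indicator_of_mem h4, indicator_of_notMem h3,
            indicator_of_notMem h1, indicator_of_notMem h2]
          simp
          linarith [t4.2]
        have hβ' : (1 - θ4) ^ q ≤ 1 - θ4 :=
          Real.rpow_le_self_of_le_one (by linarith [t4.2]) (by linarith [t4.1]) hq1.le
        rw [hβ]
        simp only [hi1, hi2, hi3, hi4, indicator_of_mem h4, indicator_of_notMem h3,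
          indicator_of_notMem h1, indicator_of_notMem h2, hc4, hc, Bool.false_eq_true, if_false]
        have k1 : t * w t * (1 - θ4) ^ q ≤ t * w t * (1 - θ4) :=
          mul_le_mul_of_nonneg_left hβ' (mul_nonneg ht0 hw0)
        have k2 : 1 / 2 * (w t * θ4) ≤ t * (w t * θ4) :=
          mul_le_mul_of_nonneg_right h4.1.le (mul_nonneg hw0 t4.1.le)
        nlinarith
      · have hβ : |1 - b false t - b true t| + |b true t| = 1 := by
          simp only [hb, hi1, hi2, hi3, hi4, indicator_of_mem h4, indicator_of_notMem h3,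
            indicator_of_notMem h1, indicator_of_notMem h2]
          simp
          rw [abs_of_nonneg (by linarith [t4.2]), abs_of_pos t4.1]; ring
        rw [hβ, Real.one_rpow]
        simp only [hi1, hi2, hi3, hi4, indicator_of_mem h4, indicator_of_notMem h3,
          indicator_of_notMem h1, indicator_of_notMem h2, hc4]
        simp
    · have hβ : |1 - b false t - b true t| + |b s t| = 1 := by
        cases s <;> simp only [hb, hi1, hi2, hi3, hi4, indicator_of_notMem h4,
          indicator_of_notMem h3, indicator_of_notMem h1, indicator_of_notMem h2] <;> simp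
      rw [hβ, Real.one_rpow]
      simp only [hi1, hi2, hi3, hi4, indicator_of_notMem h4, indicator_of_notMem h3,
        indicator_of_notMem h1, indicator_of_notMem h2]
      simp

end Pool.Agent.H461Z.Disc
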